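import Mathlib
import Pool.Agent.R493.SI.Cls
/-!
# Common iterates of several maps `x ↦ a + d x` with the property of the question

The `j`-th iterate of `x ↦ a + d x` is `x ↦ a (1 + d + ... + d ^ (j - 1)) + d ^ j x`. For any `R` maps
whose pairs `(a, d)` satisfy the hypotheses of the question, there are many exponents `j` such that the
`j`-th iterates of all `R` maps have the property of the question: among any `T` consecutive multiples `j`
of a suitable number, `T` large, at least `(1 / m R - ε) T`, where `m 1 = 3`, `m 2 = 10`, `m 3 = 36`, and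
`m R ≤ (18 / 5) ^ R` in general. The numbers `B` and `M₀` do not depend on the maps, only on their number.

The theorem on classes of linear forms with the constant `18 / 5` (`Pool.Agent.Y827.RO.lamRD`) is from the
starting files. New are the combinatorial part for several relations at once (nested cliques, Erdős's box
lemma, Turán's theorem) and its form for all long windows.
-/

namespace Pool.Agent.Results.MP_8bf9c2_nt.CommonIterates

open Finset Filter

/-- The pair `(a, D)` satisfies the hypotheses and the conclusion of the question; moreover, for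
arbitrarily large `x` there are at least `x / (log x) ^ B` primes `q ≤ x` with `a + q D` prime. -/
def Good (B : ℕ) (a D : ℤ) : Prop :=
  Int.gcd a D = 1 ∧ 2 ∣ a * D ∧
  {q : ℕ | q.Prime ∧ ∃ p : ℕ, p.Prime ∧ a + q * D = p}.Infinite ∧
  ∃ᶠ x : ℕ in atTop, (x : ℝ) / (Real.log x) ^ B ≤
    ({q : ℕ | q ≤ x ∧ q.Prime ∧ ∃ p : ℕ, p.Prime ∧ a + q * D = p}.ncard : ℝ)

/-- `m 0 = 1` and `m (R + 1) = ⌊18 * m R / 5⌋`: the numbers `1, 3, 10, 36, 129, ...` -/
def m : ℕ → ℕ
  | 0 => 1
  | R + 1 => 18 * m R / 5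

theorem m_eq (R : ℕ) : m R = Pool.Agent.R493.SI.mR R := by
  induction R with
  | zero => rfl
  | succ R ih =>
    show 18 * m R / 5 = 18 * Pool.Agent.R493.SI.mR R / 5
    rw [ih]

open Classical in
theorem result (R : ℕ) : ∃ B M₀ : ℕ, 0 < M₀ ∧
    ∀ a d : Fin R → ℤ, (∀ ρ, 1 ≤ d ρ ∧ Int.gcd (a ρ) (d ρ) = 1 ∧ 2 ∣ a ρ * d ρ ∧ a ρ ≠ 0) →
    ∀ N : ℕ, 0 < N → M₀ ∣ N → ∀ ε : ℝ, 0 < ε → ∃ L : ℕ, ∀ T : ℕ, L ≤ T → ∀ u : ℕ,
      (1 / (m R : ℝ) - ε) * T ≤ (((Ioc u (u + T)).filter (fun k => ∀ ρ : Fin R,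
        Good B (a ρ * ∑ i ∈ range (N * k), d ρ ^ i) (d ρ ^ (N * k)))).card : ℝ) := by
  obtain ⟨B, M₀, hM₀, h⟩ := Pool.Agent.R493.SI.commonN R
  refine ⟨B, M₀, hM₀, fun a d had N hN hMN ε hε => ?_⟩
  rw [m_eq]
  exact h a d had N hN hMN ε hε

end Pool.Agent.Results.MP_8bf9c2_nt.CommonIterates
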