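import Mathlib
import Pool.Agent.R493.EX.Exact
/-!
# The exact positions of the primes in the orbits of `x ↦ a + d x`

The `j`-th iterate of `x ↦ a + d x` is `x ↦ a (1 + d + ... + d ^ (j - 1)) + d ^ j x`. For every pair
`(a, d)` of the question, every `R` and every large `x` there is a nonempty set `T` of exponents, contained
in `{1, ..., 106}`, such that there are many primes `q ≤ x` for which, among the first `R` iterates of `q`,
exactly those with the exponents in `T` are prime, and the `R` numbers before `q` in its orbit are not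
prime; and there is one such `T` which serves arbitrarily large `x` for every `R`. More generally, `T` can
be found inside the set of differences to its least element of every set of `45` exponents which satisfies
the necessary local conditions.

The theorem on 45 linear forms, with exactness and with the count `x / (log x) ^ B`
(`Pool.Agent.Y876.FF`), is from the starting files.
-/

namespace Pool.Agent.Results.MP_8bf9c2_nt.ExactPositions

open Finset Filter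

/-- The number of the primes `q ≤ x` such that, for all `1 ≤ j ≤ R`, the `j`-th iterate of
`x ↦ a + d x` maps `q` to a prime if and only if `t + j ∈ T`, and it does not map any prime to `q`. -/
noncomputable def count (a d : ℤ) (t : ℕ) (T : Finset ℕ) (R : ℕ) (x : ℝ) : ℕ :=
  {q : ℕ | (q : ℝ) ≤ x ∧ q.Prime ∧ (∀ j ∈ Icc 1 R,
    ((∃ p : ℕ, p.Prime ∧ a * ∑ i ∈ range j, d ^ i + q * d ^ j = p) ↔ t + j ∈ T)) ∧
    ∀ j ∈ Icc 1 R, ∀ q' : ℕ, q'.Prime → a * ∑ i ∈ range j, d ^ i + q' * d ^ j ≠ q}.ncard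

theorem result : ∃ B : ℕ, ∀ a d : ℤ, 1 ≤ d → Int.gcd a d = 1 → 2 ∣ a * d → a ≠ 0 →
    ((∀ R : ℕ, ∀ᶠ x : ℝ in atTop, ∃ T : Finset ℕ, T.Nonempty ∧ T ⊆ Icc 1 106 ∧
        x / Real.log x ^ B ≤ count a d 0 T R x) ∧
      ∃ T : Finset ℕ, T.Nonempty ∧ T ⊆ Icc 1 106 ∧ ∀ R : ℕ, ∃ᶠ x : ℝ in atTop,
        x / Real.log x ^ B ≤ count a d 0 T R x) ∧
    ∀ E : Finset ℕ, 45 ≤ E.card →
      (∀ p : ℕ, p.Prime → 3 ≤ p → p ≤ 43 → (p : ℤ) ∣ d - 1 → ¬ (p : ℤ) ∣ a →
        ∃ r : ℕ, ∀ e ∈ E, ¬ e ≡ r [MOD p]) →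
      (∀ R : ℕ, ∀ᶠ x : ℝ in atTop, ∃ T ⊆ E, 2 ≤ T.card ∧ ∃ t ∈ T, (∀ e ∈ T, t ≤ e) ∧
        x / Real.log x ^ B ≤ count a d t T R x) ∧
      ∃ T ⊆ E, 2 ≤ T.card ∧ ∃ t ∈ T, (∀ e ∈ T, t ≤ e) ∧ ∀ R : ℕ, ∃ᶠ x : ℝ in atTop,
        x / Real.log x ^ B ≤ count a d t T R x := by
  refine ⟨Pool.Agent.R493.EX.B45 + 1, fun a d hd hg h2 ha => ⟨?_, fun E hE hcls => ?_⟩⟩
  · exact Pool.Agent.R493.EX.patterns a d hd hg h2 ha Pool.Agent.R493.EX.E45
      Pool.Agent.R493.EX.E45_card Pool.Agent.R493.EX.E45_le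
      (fun p hp h3 h43 _ _ => Pool.Agent.R493.EX.E45_cls p hp h3 h43)
  · obtain ⟨S, hSE, hS⟩ := exists_subset_card_eq hE
    have hcls' : ∀ p : ℕ, p.Prime → 3 ≤ p → p ≤ 43 → (p : ℤ) ∣ d - 1 → ¬ (p : ℤ) ∣ a →
        ∃ r : ℕ, ∀ e ∈ S, ¬ e ≡ r [MOD p] := by
      intro p hp h3 h43 h4 h5
      obtain ⟨r, hr⟩ := hcls p hp h3 h43 h4 h5
      exact ⟨r, fun e he => hr e (hSE he)⟩
    constructor
    · intro R
      filter_upwards [Pool.Agent.R493.EX.every_scale a d hd hg h2 ha S hS hcls' R] with x hx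
      obtain ⟨T, hT, h6⟩ := hx
      exact ⟨T, hT.trans hSE, h6⟩
    · obtain ⟨T, hT, h6⟩ := Pool.Agent.R493.EX.one_pattern a d hd hg h2 ha S hS hcls'
      exact ⟨T, hT.trans hSE, h6⟩

end Pool.Agent.Results.MP_8bf9c2_nt.ExactPositions
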