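import Mathlib
import Pool.Agent.R493.OT.Pairs2
/-!
# At least one third of the pairs `(a, D)`

Let `M` be a multiple of an absolute constant `M₀`. The slopes `D` are composed of the prime factors of
`M`, and the integers `a` are counted with the weight
`weight M a D = #{y mod M : y and a + y D are prime to M}`, which is (up to a factor depending on `M`
alone) the part of the singular series of the pair `q, a + q D` which belongs to the primes `p ∣ M`; it is
`0` unless `gcd(a, D) = 1` and `2 ∣ a D`. The total weight of an interval of `H M` integers is `H φ(M)²`.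

The theorem: let `F` be a finite set of such slopes, almost invariant under the multiplication with the
slopes `s ≤ n`, for example `F = {∏ p ^ e_p : u_p < e_p ≤ u_p + T_p for p ∣ M}` with large `T_p` and
arbitrary `u_p`, or `F = {D ≤ Y : the prime factors of D divide M}` with large `Y`. Then among the pairs
`(a, D)`, `D ∈ F`, `a` in an arbitrary interval of length at least `n D M` for all `D ∈ F`, the proportion
(with the weight above) of the good pairs is at least `1/3 - ε`.

The coloured Maynard-Tao theorem with the constant `18/5` (`Pool.Agent.Y827.RO.lamRD`) is from the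
starting files.
-/

namespace Pool.Agent.Results.MP_8bf9c2_nt.OneThirdOfPairs

open Finset Filter

/-- The pair `(a, D)` satisfies the hypotheses and the conclusion of the question; moreover, for
arbitrarily large `x` there are at least `x / (log x) ^ B` primes `q ≤ x` with `a + q D` prime. -/
def Good (B : ℕ) (a D : ℤ) : Prop :=
  Int.gcd a D = 1 ∧ 2 ∣ a * D ∧
  {q : ℕ | q.Prime ∧ ∃ p : ℕ, p.Prime ∧ a + q * D = p}.Infinite ∧
  ∃ᶠ x : ℕ in atTop, (x : ℝ) / (Real.log x) ^ B ≤
    ({q : ℕ | q ≤ x ∧ q.Prime ∧ ∃ p : ℕ, p.Prime ∧ a + q * D = p}.ncard : ℝ)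

/-- the number of the residues `y` modulo `M` for which `y` and `a + y D` are both prime to `M` -/
def weight (M : ℕ) (a D : ℤ) : ℕ :=
  ((range M).filter (fun y : ℕ => Nat.Coprime y M ∧ Int.gcd (a + y * D) M = 1)).card

/-- all prime factors of `D ≥ 1` divide `M` -/
def Smooth (M D : ℕ) : Prop := ∃ e : ℕ, D ∣ M ^ e

open Classical in
theorem result : ∃ B M₀ : ℕ, 0 < M₀ ∧ ∀ M : ℕ, 0 < M → M₀ ∣ M →
    (∀ (D A : ℤ) (H : ℕ), ∑ a ∈ Ioc A (A + H * M), weight M a D = H * Nat.totient M ^ 2) ∧
    ∀ ε : ℝ, 0 < ε → ∃ n : ℕ, ∀ F : Finset ℕ, F.Nonempty → (∀ D ∈ F, 0 < D ∧ Smooth M D) →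
      (∀ s ≤ n, Smooth M s →
        (1 - 1 / (n : ℝ)) * F.card ≤ ((F.filter (fun D => s * D ∈ F)).card : ℝ)) →
      ∀ (A : ℤ) (H : ℕ), (∀ D ∈ F, n * D ≤ H) →
        (1 / 3 - ε) * (F.card * (H * (Nat.totient M : ℝ) ^ 2)) ≤
          ∑ D ∈ F, ∑ a ∈ (Ioc A (A + H * M)).filter (fun a : ℤ => Good B a D),
            (weight M a D : ℝ) := by
  obtain ⟨B, M₀, K, hM₀, h⟩ := Pool.Agent.R493.OT.pairs4s
  refine ⟨B, M₀, hM₀, fun M hM hdvd => ⟨fun D A H => Pool.Agent.R493.OT.sum_wt hM D A H,
    fun ε hε => ?_⟩⟩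
  obtain ⟨n, hn⟩ := Pool.Agent.R493.OT.core2 hM K (fun a D => Good B a D)
    (fun m t ht A h1 h2 => h M hM hdvd m t ht A h1 h2) ε hε
  refine ⟨n, fun F hF hFM hinv A H hH => ?_⟩
  refine (hn F hF hFM hinv A H hH).trans (le_of_eq ?_)
  apply Finset.sum_congr rfl
  intro D _
  unfold Pool.Agent.R493.OT.sh
  rw [Nat.cast_sum]
  rfl

end Pool.Agent.Results.MP_8bf9c2_nt.OneThirdOfPairs
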