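import Mathlib
import Pool.Agent.R493.OT.Pairs
/-!
# Densities of the good `a` for the products of consecutive terms of `d_0, ..., d_{m-2}`

Let `M` be a multiple of an absolute constant `M₀` and of `d_0, ..., d_{m-2}`. For a slope `D` the
integers `a` are counted with the weight
`weight M a D = #{y mod M : y and a + y D are prime to M}`, which is `M` times the part of the singular
series of the pair `q, a + q D` which belongs to the primes `p ∣ M` (up to a factor depending on `M`
alone); it is `0` unless `gcd(a, D) = 1` and `2 ∣ a D`. The total weight of an interval of `H M`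
integers is `H φ(M)²`. The theorem: in every long interval the shares (between `0` and `1`) of the good
`a`, for the `m (m - 1) / 2` slopes `D = d_i d_{i+1} ... d_{j-1}`, `0 ≤ i < j < m`, sum up to at least
`turan m - ε`, where `turan m = ⌈m (m - 3) / 6⌉` is the number of Turan. For `m = 4` this is `1 - ε`,
for six slopes, and for `m → ∞` it is one third of the number of the slopes.

The coloured Maynard-Tao theorem with the constant `18/5` (`Pool.Agent.Y827.RO.lamRD`) is from the
starting files.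
-/

namespace Pool.Agent.Results.MP_8bf9c2_nt.SharesAlongProducts

open Finset Filter

/-- The pair `(a, D)` satisfies the hypotheses and the conclusion of the question; moreover, for
arbitrarily large `x` there are at least `x / (log x) ^ B` primes `q ≤ x` with `a + q D` prime. -/
def Good (B : ℕ) (a D : ℤ) : Prop :=
  Int.gcd a D = 1 ∧ 2 ∣ a * D ∧
  {q : ℕ | q.Prime ∧ ∃ p : ℕ, p.Prime ∧ a + q * D = p}.Infinite ∧
  ∃ᶠ x : ℕ in atTop, (x : ℝ) / (Real.log x) ^ B ≤
    ({q : ℕ | q ≤ x ∧ q.Prime ∧ ∃ p : ℕ, p.Prime ∧ a + q * D = p}.ncard : ℝ)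

/-- the number of the residues `y` modulo `M` for which `y` and `a + y D` are both prime to `M` -/
def weight (M : ℕ) (a D : ℤ) : ℕ :=
  ((range M).filter (fun y : ℕ => Nat.Coprime y M ∧ Int.gcd (a + y * D) M = 1)).card

/-- the least number of edges of a graph with `m` vertices which has an edge among any four
vertices (the number of edges of three disjoint complete graphs of almost equal size) -/
def turan (m : ℕ) : ℕ := (m / 3).choose 2 + ((m + 1) / 3).choose 2 + ((m + 2) / 3).choose 2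

theorem sum_prs (m : ℕ) (F : ℕ → ℕ → ℝ) :
    ∑ p ∈ Pool.Agent.R493.OT.prs m, F p.1 p.2 = ∑ j ∈ range m, ∑ i ∈ range j, F i j := by
  classical
  unfold Pool.Agent.R493.OT.prs
  rw [Finset.sum_filter, Fintype.sum_prod_type_right, Finset.sum_range]
  apply Finset.sum_congr rfl
  intro j _
  have h1 : ∑ i ∈ range (j : ℕ), F i j = ∑ i ∈ range m, (if i < (j : ℕ) then F i j else 0) := by
    rw [← Finset.sum_filter]
    apply Finset.sum_congr _ (fun _ _ => rfl)
    ext i
    rw [mem_range, mem_filter, mem_range]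
    have := j.2
    omega
  rw [h1, Finset.sum_range]
  rfl

open Classical in
theorem result : ∃ B M₀ : ℕ, 0 < M₀ ∧ ∀ M : ℕ, 0 < M → M₀ ∣ M →
    (∀ (D A : ℤ) (H : ℕ), ∑ a ∈ Ioc A (A + H * M), weight M a D = H * Nat.totient M ^ 2) ∧
    ∀ (m : ℕ) (d : ℕ → ℕ), (∀ l, 1 ≤ d l ∧ d l ∣ M) → ∀ ε : ℝ, 0 < ε →
      ∃ L : ℕ, ∀ (A : ℤ) (H : ℕ), L ≤ H →
        ((turan m : ℝ) - ε) * (H * (Nat.totient M : ℝ) ^ 2) ≤
          ∑ j ∈ range m, ∑ i ∈ range j,
            ∑ a ∈ (Ioc A (A + H * M)).filter (fun a : ℤ => Good B a (∏ l ∈ Ico i j, (d l : ℤ))),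
              (weight M a (∏ l ∈ Ico i j, (d l : ℤ)) : ℝ) := by
  obtain ⟨B, M₀, K, hM₀, h⟩ := Pool.Agent.R493.OT.pairs4
  refine ⟨B, M₀, hM₀, fun M hM hdvd => ⟨fun D A H => Pool.Agent.R493.OT.sum_wt hM D A H,
    fun m d hd ε hε => ?_⟩⟩
  have hd0 : ∀ l, (0 : ℤ) < d l := fun l => by exact_mod_cast (hd l).1
  obtain ⟨L, hL⟩ := Pool.Agent.R493.OT.core hM m K
    (fun i j : Fin m => ∏ l ∈ Ico (i : ℕ) j, (d l : ℤ)) (fun a D => Good B a D)
    (h M hM hdvd m (fun i : Fin m => ∏ l ∈ range (i : ℕ), (d l : ℤ))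
      (fun i j : Fin m => ∏ l ∈ Ico (i : ℕ) j, (d l : ℤ))
      (fun i => Finset.prod_pos (fun l _ => hd0 l))
      (fun i => ⟨(i : ℕ), by
        have h1 := Finset.prod_dvd_prod_of_dvd (fun l => (d l : ℤ)) (fun _ => (M : ℤ))
          (s := range (i : ℕ)) (fun l _ => by exact_mod_cast (hd l).2)
        simpa using h1⟩)
      (fun i j hij => (Finset.prod_range_mul_prod_Ico _ (le_of_lt hij)).symm)) ε hε
  refine ⟨L, fun A H hH => ?_⟩
  have h1 := hL A H hH
  refine h1.trans (le_of_eq ?_)
  rw [← sum_prs m (fun i j => ∑ a ∈ (Ioc A (A + H * M)).filter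
    (fun a : ℤ => Good B a (∏ l ∈ Ico i j, (d l : ℤ))), (weight M a (∏ l ∈ Ico i j, (d l : ℤ)) : ℝ))]
  apply Finset.sum_congr rfl
  intro p _
  unfold Pool.Agent.R493.OT.sh
  rw [Nat.cast_sum]
  rfl

end Pool.Agent.Results.MP_8bf9c2_nt.SharesAlongProducts
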